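import Pool.Agent.FLX.Stmts

/-!
# FLX, row REC: `f` of class `C^k` implies `K f` of class `C^(k+1)`
-/

set_option autoImplicit false

open scoped InnerProductSpace Topology ContDiff Manifold
open MeasureTheory Filter Set

noncomputable section

namespace Pool.Agent.FLX.H25

open Pool.Agent.Helper42_Paneitz Pool.Agent.Helper82_Vir Pool.Agent.FLX

/-- differentiable radial extension -/
def Df (f : S4 → ℝ) : Prop := ∀ y : E5, y ≠ 0 → DifferentiableAt ℝ (radialExt f) y

theorem df_of {k : ℕ} {f : S4 → ℝ} (hf : CkS (k + 1) f) : Df f := fun y hy =>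
  (hf y hy).differentiableAt (by
    rw [Nat.cast_add, Nat.cast_one]
    simp)

theorem ck_mono {k l : ℕ} (h : k ≤ l) {f : S4 → ℝ} (hf : CkS l f) : CkS k f := fun y hy =>
  (hf y hy).of_le (by exact_mod_cast h)

theorem ck_of_sm {k : ℕ} {f : S4 → ℝ} (hf : Sm f) : CkS k f := fun y hy =>
  (hf y hy).of_le (by exact_mod_cast le_top)

theorem fderiv_smul {f : S4 → ℝ} (hf : Df f) {t : ℝ} (ht : 0 < t) {y : E5}
    (hy : y ≠ 0) (v : E5) :
    fderiv ℝ (radialExt f) (t • y) v = t⁻¹ * fderiv ℝ (radialExt f) y v := by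
  have hty : t • y ≠ 0 := smul_ne_zero ht.ne' hy
  have h1 : HasFDerivAt (radialExt f) (fderiv ℝ (radialExt f) (t • y)) (t • y) :=
    (hf _ hty).hasFDerivAt
  have h2 : HasFDerivAt (fun z : E5 => t • z) (t • ContinuousLinearMap.id ℝ E5) y :=
    (hasFDerivAt_id y).const_smul t
  have h3 := h1.comp y h2
  have h4 : (radialExt f ∘ fun z : E5 => t • z) =ᶠ[𝓝 y] radialExt f := by
    filter_upwards [eventually_ne_zero hy] with z hz
    exact radialExt_pos_smul f ht hz
  have h5 := (h3.congr_of_eventuallyEq h4.symm).unique (hf _ hy).hasFDerivAt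
  have h6 := congrArg (fun L => L v) h5
  simp only [ContinuousLinearMap.comp_apply, _root_.smul_apply,
    ContinuousLinearMap.id_apply, map_smul, smul_eq_mul] at h6
  rw [← h6]
  field_simp

theorem ext_dd {f : S4 → ℝ} (hf : Df f) (v : E5) {y : E5} (hy : y ≠ 0) :
    radialExt (fun x => dd f x v) y = ‖y‖ * fderiv ℝ (radialExt f) y v := by
  have hn := norm_pos_of_ne hy
  rw [radialExt_apply _ hy]
  show fderiv ℝ (radialExt f) (‖y‖⁻¹ • y) v = _
  rw [fderiv_smul hf (inv_pos.2 hn) hy, inv_inv]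

theorem dd_self' {f : S4 → ℝ} (hf : Df f) (x : S4) : dd f x (x : E5) = 0 := by
  have hx := S4_ne_zero x
  have h1 : HasDerivAt (fun t : ℝ => radialExt f ((x : E5) + t • (x : E5)))
      (fderiv ℝ (radialExt f) ((x : E5) + (0 : ℝ) • (x : E5)) (x : E5)) 0 :=
    hasDerivAt_comp_line (by simpa using hf _ hx)
  have h2 : (fun t : ℝ => radialExt f ((x : E5) + t • (x : E5))) =ᶠ[𝓝 0]
      fun _ => radialExt f (x : E5) := by
    have : ∀ᶠ t : ℝ in 𝓝 0, -1 < t := lt_mem_nhds (by norm_num)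
    filter_upwards [this] with t ht
    have h3 : (x : E5) + t • (x : E5) = (1 + t) • (x : E5) := by rw [add_smul, one_smul]
    rw [h3, radialExt_pos_smul f (by linarith) hx]
  have h3 := (h1.congr_of_eventuallyEq h2.symm).unique (hasDerivAt_const (0 : ℝ) _)
  simpa [dd] using h3

theorem ck_dd {k : ℕ} {f : S4 → ℝ} (hf : CkS (k + 1) f) (v : E5) :
    CkS k (fun x => dd f x v) := by
  intro y hy
  have h1 : radialExt (fun x => dd f x v) =ᶠ[𝓝 y]
      fun z => ‖z‖ * fderiv ℝ (radialExt f) z v := by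
    filter_upwards [eventually_ne_zero hy] with z hz
    exact ext_dd (df_of hf) v hz
  refine ContDiffAt.congr_of_eventuallyEq ?_ h1
  have h2 : ContDiffAt ℝ k (fun z : E5 => ‖z‖) y := contDiffAt_norm ℝ hy
  have h3 : ContDiffAt ℝ k (fderiv ℝ (radialExt f)) y := (hf y hy).fderiv_right (by
    rw [Nat.cast_add, Nat.cast_one])
  exact h2.mul (h3.clm_apply contDiffAt_const)

theorem ck_mul {k : ℕ} {u v : S4 → ℝ} (hu : CkS k u) (hv : CkS k v) :
    CkS k (fun x => u x * v x) := fun y hy =>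
  ((hu y hy).mul (hv y hy)).congr_of_eventuallyEq (radialExt_mul_ev u v hy)

theorem ck_add {k : ℕ} {u v : S4 → ℝ} (hu : CkS k u) (hv : CkS k v) :
    CkS k (fun x => u x + v x) := fun y hy =>
  ((hu y hy).add (hv y hy)).congr_of_eventuallyEq (radialExt_add_ev u v hy)

theorem ck_sub {k : ℕ} {u v : S4 → ℝ} (hu : CkS k u) (hv : CkS k v) :
    CkS k (fun x => u x - v x) := by
  have h := ck_add hu (ck_mul (ck_of_sm (k := k) (sm_const (-1))) hv)
  simpa [sub_eq_add_neg] using h

theorem ck_sum {ι : Type} (s : Finset ι) {k : ℕ} {u : ι → S4 → ℝ} (hu : ∀ i ∈ s, CkS k (u i)) :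
    CkS k (fun x => ∑ i ∈ s, u i x) := by
  classical
  induction s using Finset.induction_on with
  | empty => simpa using ck_of_sm (k := k) (sm_const 0)
  | insert a s ha ih =>
    simp only [Finset.sum_insert ha]
    exact ck_add (hu a (Finset.mem_insert_self _ _))
      (ih fun i hi => hu i (Finset.mem_insert_of_mem hi))

/-- `u` is of class `C^(k+1)` if all its first derivatives are of class `C^k` -/
theorem ck_succ {k : ℕ} {u : S4 → ℝ} (hd : Df u) (h : ∀ i, CkS k (fun x => dd u x (ee i))) :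
    CkS (k + 1) u := by
  intro y hy
  rw [Nat.cast_add, Nat.cast_one, contDiffAt_succ_iff_hasFDerivAt]
  refine ⟨fderiv ℝ (radialExt u), ⟨{z | z ≠ 0}, eventually_ne_zero hy,
    fun z hz => (hd z hz).hasFDerivAt⟩, ?_⟩
  have h1 : fderiv ℝ (radialExt u) =ᶠ[𝓝 y] fun z =>
      ∑ i : Fin 5, (‖z‖⁻¹ * radialExt (fun x => dd u x (ee i)) z) • innerSL ℝ (ee i) := by
    filter_upwards [eventually_ne_zero hy] with z hz
    ext v
    have hz' : ‖z‖ ≠ 0 := norm_ne_zero_iff.2 hz
    rw [_root_.sum_apply]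
    conv_lhs => rw [← sum_ee v, map_sum]
    refine Finset.sum_congr rfl fun i _ => ?_
    rw [map_smul, _root_.smul_apply, innerSL_apply_apply, inner_ee', ext_dd hd _ hz, smul_eq_mul,
      smul_eq_mul]
    field_simp
  refine ContDiffAt.congr_of_eventuallyEq ?_ h1
  refine ContDiffAt.sum fun i _ => ?_
  have h2 : ContDiffAt ℝ k (fun z : E5 => ‖z‖) y := contDiffAt_norm ℝ hy
  have h3 : ContDiffAt ℝ k (fun z : E5 => ‖z‖⁻¹) y := h2.inv (norm_ne_zero_iff.2 hy)
  exact (h3.mul (h i y hy)).smul contDiffAt_const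

theorem ee_expand (x : S4) (i : Fin 5) :
    ee i = (∑ j : Fin 5, ⟪ee j, (x : E5)⟫_ℝ • Jf (ee j) (ee i) (x : E5)) +
      ⟪ee i, (x : E5)⟫_ℝ • (x : E5) := by
  have h1 : ∑ j : Fin 5, ⟪ee j, (x : E5)⟫_ℝ • ee j = (x : E5) := by
    simp_rw [inner_ee']
    exact sum_ee _
  have h0 : ⟪(x : E5), (x : E5)⟫_ℝ = 1 := by
    rw [real_inner_self_eq_norm_sq, S4_norm]
    norm_num
  have h2 : ∑ j : Fin 5, ⟪ee j, (x : E5)⟫_ℝ * ⟪ee j, (x : E5)⟫_ℝ = 1 := by
    have h4 := congrArg (fun z : E5 => ⟪z, (x : E5)⟫_ℝ) h1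
    simp only [sum_inner, real_inner_smul_left] at h4
    exact h4.trans h0
  have h3 : ∑ j : Fin 5, ⟪ee j, (x : E5)⟫_ℝ • Jf (ee j) (ee i) (x : E5) =
      ee i - ⟪ee i, (x : E5)⟫_ℝ • (x : E5) := by
    have h5 : ∀ j : Fin 5, ⟪ee j, (x : E5)⟫_ℝ • Jf (ee j) (ee i) (x : E5) =
        (⟪ee j, (x : E5)⟫_ℝ * ⟪ee j, (x : E5)⟫_ℝ) • ee i -
          ⟪ee i, (x : E5)⟫_ℝ • (⟪ee j, (x : E5)⟫_ℝ • ee j) := by
      intro j
      unfold Jf
      rw [smul_sub, smul_smul, smul_smul, smul_smul, mul_comm ⟪ee i, (x : E5)⟫_ℝ]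
    rw [Finset.sum_congr rfl fun j _ => h5 j, Finset.sum_sub_distrib, ← Finset.sum_smul, h2,
      one_smul, ← Finset.smul_sum, h1]
  rw [h3, sub_add_cancel]

theorem rec_row (rea : ReaStmt) (reb : RebStmt) : RecStmt := by
  intro k
  induction k with
  | zero =>
    intro f hf
    have hc : Continuous f := by
      rw [continuous_iff_continuousAt]
      intro x
      have h1 : ContinuousAt (radialExt f) (x : E5) := (hf (x : E5) (S4_ne_zero x)).continuousAt
      have h2 : ContinuousAt (fun z : S4 => radialExt f (z : E5)) x :=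
        ContinuousAt.comp (f := fun z : S4 => (z : E5)) h1 continuous_subtype_val.continuousAt
      have h3 : (fun z : S4 => radialExt f (z : E5)) = f := by
        funext z
        exact radialExt_coe f z
      rwa [h3] at h2
    have := rea f hc
    simpa using this
  | succ k ih =>
    intro f hf
    have hu : CkS (k + 1) (K f) := ih f (ck_mono (Nat.le_succ k) hf)
    have hf1 : CkS 1 f := ck_mono (by omega) hf
    refine ck_succ (df_of hu) fun i => ?_
    have h1 : (fun x => dd (K f) x (ee i)) = fun x : S4 => ∑ j : Fin 5, ⟪ee j, (x : E5)⟫_ℝ *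
        (if j = i then 0 else
          K (fun y : S4 => dd f y (Jf (ee j) (ee i) (y : E5))) x) := by
      funext x
      conv_lhs => rw [ee_expand x i]
      rw [dd_add, dd_sum, dd_smul, dd_self' (df_of hu), mul_zero, add_zero]
      refine Finset.sum_congr rfl fun j _ => ?_
      rw [dd_smul]
      congr 1
      split_ifs with hji
      · subst hji
        have h2 : Jf (ee j) (ee j) (x : E5) = 0 := by
          unfold Jf
          exact sub_self _
        rw [h2, dd_zero]
      · refine reb f hf1 (ee j) (ee i) ?_ ?_ ?_ x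
        · exact (EuclideanSpace.basisFun (Fin 5) ℝ).norm_eq_one j
        · exact (EuclideanSpace.basisFun (Fin 5) ℝ).norm_eq_one i
        · exact (EuclideanSpace.basisFun (Fin 5) ℝ).inner_eq_zero hji
    rw [h1]
    refine ck_sum _ fun j _ => ck_mul (ck_of_sm (sm_inner (ee j))) ?_
    by_cases hji : j = i
    · simp only [hji, if_true]
      exact ck_of_sm (sm_const 0)
    · simp only [hji, if_false]
      refine ih _ ?_
      have h2 : (fun y : S4 => dd f y (Jf (ee j) (ee i) (y : E5))) = fun y : S4 =>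
          ⟪ee j, (y : E5)⟫_ℝ * dd f y (ee i) - ⟪ee i, (y : E5)⟫_ℝ * dd f y (ee j) := by
        funext y
        unfold Jf
        rw [dd_sub, dd_smul, dd_smul]
      rw [h2]
      exact ck_sub (ck_mul (ck_of_sm (sm_inner _)) (ck_dd hf _))
        (ck_mul (ck_of_sm (sm_inner _)) (ck_dd hf _))

end Pool.Agent.FLX.H25
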